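import Pool.Agent.Q191.QGraphLol2

set_option autoImplicit false

open Set Q191.QGraph Q191.QGraph.MGraph

namespace Pool.Agent.Results.MP_c0afcf_an.InfiniteProperHotSpots

/-- There is a compact metric graph with standard vertex conditions whose set of hot spots is
infinite but not the whole graph: a cycle of length `3 pi / 2` with two pendant edges of length
`arctan 2` attached at two points at distance `pi / 4`. -/
theorem result : ∃ G : MGraph, G.Connected ∧ G.HotSpots.Infinite ∧ G.HotSpots ≠ univ := by
  have hpi := Real.pi_pos
  have h : Real.pi / 8 ∈ Ioo (0 : ℝ) (lolLen 1) :=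
    ⟨by positivity, by show Real.pi / 8 < Real.pi / 4; linarith⟩
  refine ⟨lol, lol_connected, lol_infinite, ?_⟩
  intro hu
  exact lol_not_hot h (hu ▸ mem_univ _)

end Pool.Agent.Results.MP_c0afcf_an.InfiniteProperHotSpots
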